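import Pool.Agent.Helper937.SplZ

/-!
ZFC lemmas on splitting graphs to ℵ₁ parts.
-/

set_option autoImplicit false

universe u

namespace Pool.Agent.TH764.Spl

open Cardinal Pool.Agent.Helper937.SplZ

/-- fewer parts: compose with a surjection -/
theorem SplitsTo.surj {V : Type u} {G : SimpleGraph V} {D D' : Type*} (g : D → D')
    (hg : Function.Surjective g) (h : SplitsTo G D) : SplitsTo G D' := by
  obtain ⟨H, h1, h2, h3⟩ := h
  refine ⟨fun d' =>
    { Adj := fun x y => ∃ d, g d = d' ∧ (H d).Adj x y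
      symm := ⟨fun x y ⟨d, hd, hxy⟩ => ⟨d, hd, hxy.symm⟩⟩
      loopless := ⟨fun x ⟨d, _, hx⟩ => (H d).loopless.irrefl x hx⟩ }, ?_, ?_, ?_⟩
  · intro x y
    rw [h1]
    constructor
    · rintro ⟨ν, hν⟩; exact ⟨g ν, ν, rfl, hν⟩
    · rintro ⟨_, ν, _, hν⟩; exact ⟨ν, hν⟩
  · rintro μ ν hne x y ⟨a, ha, hxa⟩ ⟨b, hb, hxb⟩
    have hab : a = b := by
      by_contra hab
      exact h2 a b hab x y hxa hxb
    exact hne (by rw [← ha, ← hb, hab])
  · intro π
    obtain ⟨n, hn⟩ := h3 π
    refine ⟨n, fun ν => ?_⟩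
    obtain ⟨d, rfl⟩ := hg ν
    obtain ⟨x, y, hxy, hx, hy⟩ := hn d
    exact ⟨x, y, ⟨d, rfl, hxy⟩, hx, hy⟩

/-- the order type ω₁ as a type -/
abbrev Om : Type := (ℵ_ 1).ord.ToType

theorem om_bdd (m : ℕ → Om) : ∃ ν : Om, ∀ n, m n ≤ ν := by
  by_contra hcon
  push Not at hcon
  have hcof : IsCofinal (Set.range m) := by
    intro ν
    obtain ⟨n, hn⟩ := hcon ν
    exact ⟨m n, ⟨n, rfl⟩, hn.le⟩
  have h1 : Order.cof Om ≤ #(Set.range m) := Order.cof_le hcof
  have h2 : #(Set.range m) ≤ ℵ₀ := by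
    rw [Cardinal.mk_le_aleph0_iff]
    exact (Set.countable_range m).to_subtype
  have h3 : Order.cof Om = ℵ_ 1 := by
    rw [Ordinal.cof_toType]
    exact isRegular_aleph_one.cof_eq
  rw [h3] at h1
  exact absurd (h1.trans h2) (not_le.2 aleph0_lt_aleph_one)

theorem om_Iic (β : Om) : (Set.Iic β).Countable := by
  have := mk_Iic_lt (α := Om) β (by simp [Om]) (by simp [Om])
  rw [countable_iff_lt_aleph_one]
  simpa [Om] using this

theorem om_enum : ∃ e : Om → ℕ → Om, (∀ β k, e β k ≤ β) ∧ ∀ β ν, ν ≤ β → ∃ k, e β k = ν := by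
  have h : ∀ β : Om, ∃ e : ℕ → Om, Set.range e = Set.Iic β := by
    intro β
    obtain ⟨e, he⟩ := (om_Iic β).exists_eq_range ⟨β, Set.mem_Iic.2 le_rfl⟩
    exact ⟨e, he.symm⟩
  choose e he using h
  refine ⟨e, fun β k => ?_, fun β ν h => ?_⟩
  · have : e β k ∈ Set.range (e β) := ⟨k, rfl⟩
    rw [he β] at this
    exact this
  · have : ν ∈ Set.range (e β) := by rw [he β]; exact h
    exact this

/-- **ZFC.** A graph with a proper colouring by `ω₁` that splits to `ℵ₀` parts splits to `ℵ₁`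
parts. -/
theorem splits_om {V : Type u} (G : SimpleGraph V) (f : V → Om)
    (hf : ∀ x y, G.Adj x y → f x ≠ f y) (h : SplitsTo G ℕ) : SplitsTo G Om := by
  classical
  by_contra hcon
  have hNS := NS.of_not_splitsTo hcon
  obtain ⟨H, h1, h2, h3⟩ := h
  obtain ⟨e, -, he⟩ := om_enum
  -- the index
  let g : V → V → ℕ := fun x y => sInf {n | (H n).Adj x y}
  have hgs : ∀ x y, g x y = g y x := by
    intro x y
    simp only [g]
    congr 1
    ext n
    exact ⟨fun h => h.symm, fun h => h.symm⟩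
  have hg : ∀ n x y, (H n).Adj x y → g x y = n := by
    intro n x y hxy
    have hmem : (H (g x y)).Adj x y := Nat.sInf_mem (s := {n | (H n).Adj x y}) ⟨n, hxy⟩
    by_contra hne
    exact h2 _ _ hne x y hmem hxy
  obtain ⟨π, m, hm⟩ := hNS (fun x y => e (max (f x) (f y)) (g x y)) (fun x y => by
    rw [max_comm, hgs])
  obtain ⟨νs, hνs⟩ := om_bdd m
  -- the refined partition
  have hk : ∀ y, ¬ f y < νs → ∃ k, e (f y) k = m (π y) := by
    intro y hy
    exact he _ _ ((hνs (π y)).trans (not_lt.1 hy))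
  let lab : V → (ℕ × ℕ) ⊕ (Set.Iic νs) := fun y =>
    if hy : f y < νs then Sum.inr ⟨f y, hy.le⟩
    else Sum.inl (π y, Nat.find (hk y hy))
  have : Countable (Set.Iic νs) := (om_Iic νs).to_subtype
  obtain ⟨enc, henc⟩ := Countable.exists_injective_nat ((ℕ × ℕ) ⊕ (Set.Iic νs))
  obtain ⟨n, hn⟩ := h3 (fun y => enc (lab y))
  obtain ⟨x0, y0, hxy0, hx0, hy0⟩ := hn 0
  have hlab0 : lab x0 = lab y0 := henc (hx0.trans hy0.symm)
  have hadj0 : G.Adj x0 y0 := (h1 _ _).2 ⟨0, hxy0⟩
  by_cases hs : f x0 < νs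
  · have e1 : lab x0 = Sum.inr ⟨f x0, hs.le⟩ := dif_pos hs
    by_cases ht : f y0 < νs
    · have e2 : lab y0 = Sum.inr ⟨f y0, ht.le⟩ := dif_pos ht
      rw [e1, e2] at hlab0
      have := Sum.inr.inj hlab0
      exact hf _ _ hadj0 (congrArg Subtype.val this)
    · have e2 : lab y0 = Sum.inl (π y0, Nat.find (hk y0 ht)) := dif_neg ht
      rw [e1, e2] at hlab0
      exact Sum.inr_ne_inl hlab0
  · have e1 : lab x0 = Sum.inl (π x0, Nat.find (hk x0 hs)) := dif_neg hs
    set k0 := Nat.find (hk x0 hs) with hk0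
    obtain ⟨x, y, hxy, hx, hy⟩ := hn k0
    have hadj : G.Adj x y := (h1 _ _).2 ⟨k0, hxy⟩
    have key : ∀ z, enc (lab z) = n → π z = π x0 ∧ e (f z) k0 = m (π z) := by
      intro z hz
      have hlz : lab z = lab x0 := henc (hz.trans hx0.symm)
      by_cases hsz : f z < νs
      · have e2 : lab z = Sum.inr ⟨f z, hsz.le⟩ := dif_pos hsz
        rw [e1, e2] at hlz
        exact absurd hlz Sum.inr_ne_inl
      · have e2 : lab z = Sum.inl (π z, Nat.find (hk z hsz)) := dif_neg hsz
        rw [e1, e2] at hlz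
        have h4 := Sum.inl.inj hlz
        rw [Prod.mk.injEq] at h4
        refine ⟨h4.1, ?_⟩
        rw [← h4.2]
        exact Nat.find_spec (hk z hsz)
    obtain ⟨hx1, hx2⟩ := key x hx
    obtain ⟨hy1, hy2⟩ := key y hy
    apply hm x y hadj (hx1.trans hy1.symm)
    rw [hg k0 x y hxy]
    rcases le_total (f x) (f y) with hle | hle
    · rw [max_eq_right hle, hy2, hy1, hx1]
    · rw [max_eq_left hle, hx2]

/-- **ZFC.** A graph of chromatic number at most `ℵ₁` that splits to `ℵ₀` parts splits to `D`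
parts for every nonempty `D` of size at most `ℵ₁`. -/
theorem splits_aleph_one {V : Type u} (G : SimpleGraph V) (hG : ColorableBy G (ℵ_ 1))
    (h : SplitsTo G ℕ) (D : Type) (hD : Nonempty D) (hDc : #D ≤ ℵ_ 1) : SplitsTo G D := by
  obtain ⟨α, f, hα, hf⟩ := hG
  have h1 : lift.{0} #α ≤ lift.{u} #Om := by
    rw [lift_uzero]
    refine hα.trans ?_
    simp [Om]
  obtain ⟨i⟩ := lift_mk_le'.1 h1
  have h2 := splits_om G (fun x => i (f x)) (fun x y hxy heq => hf x y hxy (i.injective heq)) h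
  have h3 : #D ≤ #Om := by simpa [Om] using hDc
  obtain ⟨j⟩ := (le_def _ _).1 h3
  exact SplitsTo.surj (Function.invFun j) (Function.invFun_surjective j.injective) h2

/-- Diagonal separating systems at a successor cardinal under the continuum hypothesis for `μ`. -/
theorem sep_succ (D : Type u) (μ : Cardinal.{u}) (h0 : ℵ₀ ≤ μ) (hμ : 2 ^ μ = Order.succ μ)
    (hD0 : Nonempty D) (hD : #D ≤ Order.succ μ) : Sep D μ (Order.succ μ) := by
  classical
  intro T hT
  let J : Type u := μ.out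
  have hJ : #J = μ := mk_out μ
  have hJne : Nonempty J := by
    rw [← mk_ne_zero_iff, hJ]
    exact (aleph0_pos.trans_le h0).ne'
  let W : Type u := (Order.succ μ).ord.ToType
  have hW : #W = Order.succ μ := by simp [W]
  have hJD : #(J → D) ≤ #W := by
    rw [hW, ← power_def, hJ]
    calc #D ^ μ ≤ (Order.succ μ) ^ μ := power_le_power_right hD
      _ = (2 ^ μ) ^ μ := by rw [hμ]
      _ = 2 ^ (μ * μ) := by rw [power_mul]
      _ = 2 ^ μ := by rw [mul_eq_self h0]
      _ = Order.succ μ := hμ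
  obtain ⟨jj⟩ := (le_def _ _).1 hJD
  let en : W → (J → D) := Function.invFun jj
  have hen : Function.Surjective en := Function.invFun_surjective jj.injective
  have hTW : #T = #W := by rw [hT, hW]
  obtain ⟨eT⟩ := Cardinal.eq.1 hTW
  have hIic : ∀ w : W, #(Set.Iic w) ≤ μ := by
    intro w
    have := mk_Iic_lt (α := W) w (by simp [W]) (by rw [hW]; exact h0.trans (Order.le_succ μ))
    rw [hW] at this
    exact Order.lt_succ_iff.1 this
  have hsur : ∀ w : W, ∃ s : J → Set.Iic w, Function.Surjective s := by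
    intro w
    have h1 : #(Set.Iic w) ≤ #J := by rw [hJ]; exact hIic w
    obtain ⟨k⟩ := (le_def _ _).1 h1
    have : Nonempty (Set.Iic w) := ⟨⟨w, Set.mem_Iic.2 le_rfl⟩⟩
    exact ⟨Function.invFun k, Function.invFun_surjective k.injective⟩
  choose s hs using hsur
  refine ⟨J, fun j ξ => en (s (eT ξ) j : W) j, ?_, ?_⟩
  · rw [hJ]; exact Order.lt_succ μ
  · intro i
    obtain ⟨ζ, hζ⟩ := hen i
    have hsub : {ξ : T | ∀ j, en (s (eT ξ) j : W) j ≠ i j} ⊆ eT ⁻¹' (Set.Iic ζ) := by
      intro ξ hξ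
      by_contra hnot
      have hlt : ζ ≤ eT ξ := (not_le.1 hnot).le
      obtain ⟨j, hj⟩ := hs (eT ξ) ⟨ζ, hlt⟩
      apply hξ j
      rw [hj, hζ]
    refine (mk_le_mk_of_subset hsub).trans ?_
    rw [mk_preimage_equiv]
    exact hIic ζ

/-- the induction under GCH -/
theorem core_gch {V D : Type u} (β : Cardinal.{u}) (h0 : ℵ₀ ≤ β) (hD0 : Nonempty D)
    (hD : #D ≤ Order.succ β) :
    ∀ η : Cardinal.{u}, (∀ μ, β ≤ μ → μ < η → 2 ^ μ = Order.succ μ) →
      (∀ μ, β < μ → μ ≤ η → ¬ μ.IsInaccessible) →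
      ∀ G : SimpleGraph V, NS G D → ColorableBy G (2 ^ η) → ColorableBy G (2 ^ β) := by
  intro η
  induction η using WellFoundedLT.induction with
  | ind η IH =>
    intro hgch hno G hNS hcol
    rcases le_or_gt η β with hle | hlt
    · exact hcol.mono (power_le_power_left two_ne_zero hle)
    have IH' : ∀ η' < η, ∀ H : SimpleGraph V, NS H D → ColorableBy H (2 ^ η') →
        ColorableBy H (2 ^ β) := by
      intro η' hη' H hH hHc
      exact IH η' hη' (fun μ h1 h2 => hgch μ h1 (h2.trans hη'))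
        (fun μ h1 h2 => hno μ h1 (h2.trans hη'.le)) H hH hHc
    have hstep : ∃ η' < η, ColorableBy G (2 ^ η') := by
      by_cases hreg : η.IsRegular
      · have hns : ¬ η.IsStrongPrelimit := by
          intro hs
          exact hno η hlt le_rfl ⟨lt_of_le_of_lt h0 hlt, hreg.le_cof_ord, hs⟩
        unfold IsStrongPrelimit at hns
        push Not at hns
        obtain ⟨ρ, hρ, hρ2⟩ := hns
        -- replace ρ by max ρ β
        have hmax : max ρ β < η := max_lt hρ hlt
        have hgm : 2 ^ max ρ β = Order.succ (max ρ β) := hgch _ (le_max_right _ _) hmax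
        have hηs : η = Order.succ (max ρ β) := by
          apply le_antisymm
          · rw [← hgm]
            exact hρ2.trans (power_le_power_left two_ne_zero (le_max_left _ _))
          · exact Order.succ_le_of_lt hmax
        have hDm : #D ≤ Order.succ (max ρ β) :=
          hD.trans (Order.succ_le_succ (le_max_right _ _))
        rw [hηs] at hcol ⊢
        exact step_sep G hNS (max ρ β) _ (h0.trans (le_max_right _ _)) (Order.lt_succ _)
          (sep_succ D _ (h0.trans (le_max_right _ _)) hgm hD0 hDm) hcol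
      · exact step_singular G hNS β η h0 hlt hreg IH' hcol
    obtain ⟨η', hη', hc'⟩ := hstep
    exact IH' η' hη' G hNS hc'

/-- **Under GCH.** -/
theorem splits_gch {V D : Type u} (G : SimpleGraph V) (β θ : Cardinal.{u}) (h0 : ℵ₀ ≤ β)
    (hgch : ∀ μ, β ≤ μ → μ < θ → 2 ^ μ = Order.succ μ)
    (hno : ∀ μ, β < μ → μ ≤ θ → ¬ μ.IsInaccessible)
    (hlow : ¬ ColorableBy G (2 ^ β)) (hup : ColorableBy G (2 ^ θ))
    (hD0 : Nonempty D) (hD : #D ≤ Order.succ β) : SplitsTo G D := by
  by_contra hcon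
  exact hlow (core_gch β h0 hD0 hD θ hgch hno G (NS.of_not_splitsTo hcon) hup)

end Pool.Agent.TH764.Spl
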