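import Pool.Agent.Helper937.Spl2
import Pool.Agent.TH764.Spl.Zfc

/-!
The name version of the lemma: below a condition that forces a graph, coloured properly by the
ground model reals, to split to ℵ₀ parts, it splits to ω₁ parts (CH in the ground model).
-/

set_option autoImplicit false

namespace Pool.Agent.TH764.Spl

open Cardinal Pool.Agent.Helper937.Spl

/-- a countable maximal antichain inside `N` -/
theorem exists_max_antichain {I : Type} (N : Set (Fn I)) :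
    ∃ A : Set (Fn I), A ⊆ N ∧ A.Countable ∧ ∀ t ∈ N, ∃ a ∈ A, ∃ u, ext a u ∧ ext t u := by
  classical
  obtain ⟨A, hA⟩ := zorn_subset {A : Set (Fn I) | A ⊆ N ∧
      ∀ a ∈ A, ∀ b ∈ A, a ≠ b → ¬ ∃ c, ext a c ∧ ext b c} (by
    intro c hc hchain
    refine ⟨⋃₀ c, ⟨Set.sUnion_subset fun s hs => (hc hs).1, ?_⟩, fun s hs =>
      Set.subset_sUnion_of_mem hs⟩
    rintro a ⟨s, hs, has⟩ b ⟨t, ht, hbt⟩ hab
    rcases hchain.total hs ht with h | h
    · exact (hc ht).2 a (h has) b hbt hab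
    · exact (hc hs).2 a has b (h hbt) hab)
  obtain ⟨⟨hAN, hAA⟩, hmax⟩ := hA
  refine ⟨A, hAN, fn_ccc I A hAA, ?_⟩
  intro t ht
  by_contra hcon
  push Not at hcon
  have htA : t ∈ A := by
    have h1 : insert t A ∈ {A : Set (Fn I) | A ⊆ N ∧
        ∀ a ∈ A, ∀ b ∈ A, a ≠ b → ¬ ∃ c, ext a c ∧ ext b c} := by
      refine ⟨Set.insert_subset ht hAN, ?_⟩
      rintro a (rfl | ha) b (rfl | hb) hab
      · exact absurd rfl hab
      · rintro ⟨c, hc1, hc2⟩
        exact hcon b hb c hc2 hc1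
      · rintro ⟨c, hc1, hc2⟩
        exact hcon a ha c hc1 hc2
      · exact hAA a ha b hb hab
    exact hmax h1 (Set.subset_insert t A) (Set.mem_insert t A)
  exact hcon t htA t (ext_refl t) (ext_refl t)

/-- names for elements of ω₁ are bounded -/
theorem bounded {I : Type} (B : Om → Fn I → Prop)
    (hmono : ∀ ν p q, B ν p → ext p q → B ν q) (s : Fn I)
    (hd : ∀ t, ext s t → ∃ ν t', ext t t' ∧ B ν t') :
    ∃ νs : Om, ∀ t, ext s t → ∃ ν ≤ νs, ∃ t', ext t t' ∧ B ν t' := by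
  classical
  obtain ⟨A, hAN, hAc, hA⟩ := exists_max_antichain {t : Fn I | ∃ ν, B ν t}
  have hch : ∀ a : A, ∃ ν, B ν a := fun a => hAN a.2
  choose ν hν using hch
  have : Countable A := hAc.to_subtype
  have hne : A.Nonempty := by
    obtain ⟨ν0, t', _, h0⟩ := hd s (ext_refl s)
    obtain ⟨a, ha, _⟩ := hA t' ⟨ν0, h0⟩
    exact ⟨a, ha⟩
  have : Nonempty A := hne.to_subtype
  obtain ⟨en, hen⟩ := exists_surjective_nat A
  obtain ⟨νs, hνs⟩ := om_bdd (fun n => ν (en n))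
  refine ⟨νs, fun t ht => ?_⟩
  obtain ⟨ν1, t1, ht1, hB1⟩ := hd t ht
  obtain ⟨a, ha, u, hau, htu⟩ := hA t1 ⟨ν1, hB1⟩
  obtain ⟨n, hn⟩ := hen ⟨a, ha⟩
  refine ⟨ν ⟨a, ha⟩, ?_, u, ext_trans ht1 htu, hmono _ _ _ (hν ⟨a, ha⟩) hau⟩
  have := hνs n
  simp only [hn] at this
  exact this

/-- the splitting property for a countable cover -/
theorem splits_of_cover {I L D κ : Type} [Nonempty D] [Countable κ] (H : L → L → Set (Fn I))
    (K : D → L → L → Set (Fn I)) (r : Fn I) (hK : Splits H K r) (C : κ → L → Set (Fn I))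
    (s : Fn I) (hs : ext r s)
    (hC : ∀ v t, ext s t → ∃ t', ext t t' ∧ ∃ k, Forces (C k v) t') :
    ∃ t, ext s t ∧ ∃ k, ∀ i : D, ∀ t', ext t t' → ∃ t'', ext t' t'' ∧
      ∃ v w, Forces (C k v) t'' ∧ Forces (C k w) t'' ∧ Forces (K i v w) t'' := by
  classical
  obtain ⟨enc, henc⟩ := Countable.exists_injective_nat κ
  let C' : ℕ → L → Set (Fn I) := fun n v => {p | ∃ k, enc k = n ∧ p ∈ C k v}
  have hC'1 : ∀ k v, C' (enc k) v = C k v := by
    intro k v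
    ext p
    constructor
    · rintro ⟨k', hk', hp⟩
      rw [henc hk'] at hp
      exact hp
    · intro hp
      exact ⟨k, rfl, hp⟩
  let E : L → ℕ → Set (Fn I) := fun v n =>
    {p | Forces (C' n v) p ∧ ∀ m, m < n → ∀ q, ext p q → ¬ Forces (C' m v) q}
  have hDC : ∀ v n t, Forces (E v n) t → Forces (C' n v) t := fun v n t h =>
    h.of_dense fun w hw => hw.1
  have hfun : IsFun E s := by
    refine ⟨?_, ?_⟩
    · intro v t ht
      have hex : ∃ n, ∃ t', ext t t' ∧ Forces (C' n v) t' := by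
        obtain ⟨t', ht', k, hk⟩ := hC v t ht
        exact ⟨enc k, t', ht', by rw [hC'1]; exact hk⟩
      obtain ⟨t', ht', hF⟩ := Nat.find_spec hex
      refine ⟨t', ht', Nat.find hex, Forces.of_mem ⟨hF, ?_⟩⟩
      intro m hm q hq hFq
      exact Nat.find_min hex hm ⟨q, ext_trans ht' hq, hFq⟩
    · have key : ∀ v n m t, n < m → Forces (E v n) t → Forces (E v m) t → False := by
        intro v n m t hnm h1 h2
        obtain ⟨t1, ht1, w, hw, hwt⟩ := h1 t (ext_refl t)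
        obtain ⟨t2, ht2, w', hw', hw't⟩ := (h2.mono ht1) t1 (ext_refl t1)
        exact hw'.2 n hnm t2 hw't (hw.1.mono (ext_trans hwt ht2))
      intro v a b t _ h1 h2
      rcases lt_trichotomy a b with h | h | h
      · exact (key v a b t h h1 h2).elim
      · exact h
      · exact (key v b a t h h2 h1).elim
  obtain ⟨t, ht, n, hn⟩ := hK.2.2.2 E s hs hfun
  obtain ⟨d⟩ := (inferInstance : Nonempty D)
  obtain ⟨t1, ht1, v, w, h1, -, -⟩ := hn d t (ext_refl t)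
  obtain ⟨t2, _, p, ⟨k, hk, _⟩, _⟩ := hDC v n t1 h1 t1 (ext_refl t1)
  subst hk
  refine ⟨t, ht, k, fun i t' ht' => ?_⟩
  obtain ⟨t'', ht'', v, w, h1, h2, h3⟩ := hn i t' ht'
  have h1' := hDC v _ _ h1
  have h2' := hDC w _ _ h2
  rw [hC'1] at h1' h2'
  exact ⟨t'', ht'', v, w, h1', h2', h3⟩

/-- the class of the colour `ν` -/
def Kom {I L R : Type} (f : L → R → Set (Fn I)) (K0 : ℕ → L → L → Set (Fn I)) (rk : R → Om)
    (e : Om → ℕ → Om) (ν : Om) (v w : L) : Set (Fn I) :=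
  {p | ∃ a b k, Forces (f v a) p ∧ Forces (f w b) p ∧ Forces (K0 k v w) p ∧
    e (max (rk a) (rk b)) k = ν}

section
variable {I L R : Type} (f : L → R → Set (Fn I)) (K0 : ℕ → L → L → Set (Fn I)) (rk : R → Om)
    (e : Om → ℕ → Om)

theorem Kom.mono {ν : Om} {v w : L} {p q : Fn I} (h : p ∈ Kom f K0 rk e ν v w) (hpq : ext p q) :
    q ∈ Kom f K0 rk e ν v w := by
  obtain ⟨a, b, k, h1, h2, h3, h4⟩ := h
  exact ⟨a, b, k, h1.mono hpq, h2.mono hpq, h3.mono hpq, h4⟩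

theorem Kom.dense {ν : Om} {v w : L} {t s : Fn I} (h : Forces (Kom f K0 rk e ν v w) t)
    (hs : ext t s) : ∃ u, ext s u ∧ u ∈ Kom f K0 rk e ν v w := by
  obtain ⟨u, hu, p, hp, hpu⟩ := h s hs
  exact ⟨u, hu, Kom.mono f K0 rk e hp hpu⟩

theorem forces_of_dense_mem' {N : Set (Fn I)} {t : Fn I}
    (h : ∀ s, ext t s → ∃ u, ext s u ∧ u ∈ N) : Forces N t := by
  intro s hs
  obtain ⟨u, hu, huN⟩ := h s hs
  exact ⟨u, hu, u, huN, ext_refl u⟩

theorem forces_trans {N : Set (Fn I)} {t : Fn I}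
    (h : ∀ s, ext t s → ∃ u, ext s u ∧ Forces N u) : Forces N t := by
  intro s hs
  obtain ⟨u, hu, huN⟩ := h s hs
  obtain ⟨x, hx, w, hw, hwx⟩ := huN u (ext_refl u)
  exact ⟨x, ext_trans hu hx, w, hw, hwx⟩

/-- **The name version of the lemma.** -/
theorem splits_om_names (H : L → L → Set (Fn I)) (r : Fn I) (hrk : Function.Injective rk)
    (he : ∀ β ν, ν ≤ β → ∃ k, e β k = ν)
    (hf : IsFun f r) (hP : IsProper H f r) (hK : Splits H K0 r) :
    Splits H (Kom f K0 rk e) r := by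
  classical
  have hKall := hK
  obtain ⟨h1, h2, h3, h4⟩ := hK
  refine ⟨?_, ?_, ?_, ?_⟩
  · intro ν v w t hrt hF
    refine ⟨?_, ?_⟩
    · apply forces_trans
      intro s hs
      obtain ⟨u, hu, a, b, k, ha, hb, hk, hν⟩ := Kom.dense f K0 rk e hF hs
      exact ⟨u, hu, (h1 k v w u (ext_trans hrt (ext_trans hs hu)) hk).1⟩
    · apply forces_of_dense_mem'
      intro s hs
      obtain ⟨u, hu, a, b, k, ha, hb, hk, hν⟩ := Kom.dense f K0 rk e hF hs
      refine ⟨u, hu, b, a, k, hb, ha, (h1 k v w u (ext_trans hrt (ext_trans hs hu)) hk).2, ?_⟩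
      rw [max_comm]
      exact hν
  · intro v w t hrt hF
    obtain ⟨t1, ht1, k, hk⟩ := h2 v w t hrt hF
    obtain ⟨t2, ht2, a, ha⟩ := hf.1 v t1 (ext_trans hrt ht1)
    obtain ⟨t3, ht3, b, hb⟩ := hf.1 w t2 (ext_trans hrt (ext_trans ht1 ht2))
    exact ⟨t3, ext_trans ht1 (ext_trans ht2 ht3), e (max (rk a) (rk b)) k, Forces.of_mem
      ⟨a, b, k, ha.mono ht3, hb, hk.mono (ext_trans ht2 ht3), rfl⟩⟩
  · intro ν ν' v w t hrt hF1 hF2
    obtain ⟨u1, hu1, hm1⟩ := Kom.dense f K0 rk e hF1 (ext_refl t)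
    obtain ⟨u, hu, a, b, k, ha, hb, hk, hν⟩ := Kom.dense f K0 rk e hF2 hu1
    obtain ⟨a', b', k', ha', hb', hk', hν'⟩ := Kom.mono f K0 rk e hm1 hu
    have hru : ext r u := ext_trans hrt (ext_trans hu1 hu)
    have e1 := hf.2 v a a' u hru ha ha'
    have e2 := hf.2 w b b' u hru hb hb'
    have e3 := h3 k k' v w u hru hk hk'
    subst e1 e2 e3
    rw [← hν, ← hν']
  · intro π s hrs hπ
    by_contra hcon
    -- every piece misses a colour
    let B : ℕ → Om → Fn I → Prop := fun n ν t' => ∀ t'', ext t' t'' →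
      ¬ ∃ v w, Forces (π v n) t'' ∧ Forces (π w n) t'' ∧ Forces (Kom f K0 rk e ν v w) t''
    have hB : ∀ n t, ext s t → ∃ ν t', ext t t' ∧ B n ν t' := by
      intro n t ht
      by_contra h
      apply hcon
      refine ⟨t, ht, n, fun ν t' ht' => ?_⟩
      by_contra h'
      apply h
      refine ⟨ν, t', ht', fun t'' ht'' hA => h' ⟨t'', ht'', hA⟩⟩
    have hBm : ∀ n ν p q, B n ν p → ext p q → B n ν q :=
      fun n ν p q h hpq t'' ht'' => h t'' (ext_trans hpq ht'')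
    choose νn hνn using fun n => bounded (B n) (hBm n) s (hB n)
    obtain ⟨νs, hνs⟩ := om_bdd νn
    have hBs : ∀ n t, ext s t → ∃ ν ≤ νs, ∃ t', ext t t' ∧ B n ν t' := by
      intro n t ht
      obtain ⟨ν, hν, t', ht', hb⟩ := hνn n t ht
      exact ⟨ν, hν.trans (hνs n), t', ht', hb⟩
    let C : (ℕ × ℕ) ⊕ (Set.Iic νs) → L → Set (Fn I) := fun c v =>
      match c with
      | Sum.inl nk => {p | ext s p ∧ Forces (π v nk.1) p ∧ ∃ a ν, Forces (f v a) p ∧
          B nk.1 ν p ∧ e (rk a) nk.2 = ν}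
      | Sum.inr ξ => {p | ∃ a, Forces (f v a) p ∧ rk a = ξ.1}
    have : Countable (Set.Iic νs) := (om_Iic νs).to_subtype
    have hC : ∀ v t, ext s t → ∃ t', ext t t' ∧ ∃ c, Forces (C c v) t' := by
      intro v t ht
      obtain ⟨t1, ht1, n, hn⟩ := hπ.1 v t ht
      obtain ⟨t2, ht2, a, ha⟩ := hf.1 v t1 (ext_trans hrs (ext_trans ht ht1))
      obtain ⟨ν, hν, t3, ht3, hb⟩ := hBs n t2 (ext_trans ht (ext_trans ht1 ht2))
      refine ⟨t3, ext_trans ht1 (ext_trans ht2 ht3), ?_⟩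
      by_cases hr : ν ≤ rk a
      · obtain ⟨k, hk⟩ := he (rk a) ν hr
        refine ⟨Sum.inl (n, k), Forces.of_mem ⟨ext_trans ht (ext_trans ht1 (ext_trans ht2 ht3)),
          hn.mono (ext_trans ht2 ht3), a, ν, ha.mono ht3, hb, hk⟩⟩
      · have hle : rk a ≤ νs := (not_le.1 hr).le.trans hν
        exact ⟨Sum.inr ⟨rk a, hle⟩, Forces.of_mem ⟨a, ha.mono ht3, rfl⟩⟩
    obtain ⟨t, ht, c, hc⟩ := splits_of_cover H K0 r hKall C s hrs hC
    rcases c with ⟨n, k⟩ | ⟨ξ, hξ⟩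
    · obtain ⟨t1, ht1, v, w, hv, hw, hvw⟩ := hc k t (ext_refl t)
      obtain ⟨t2, ht2, pv, hpv, hpvt⟩ := hv t1 (ext_refl t1)
      obtain ⟨t3, ht3, pw, hpw, hpwt⟩ := (hw.mono ht2) t2 (ext_refl t2)
      obtain ⟨hspv, hπv, a, ν, hfv, hBv, hev⟩ := hpv
      obtain ⟨hspw, hπw, b, ν', hfw, hBw, hew⟩ := hpw
      have hpvt3 : ext pv t3 := ext_trans hpvt ht3
      have hrt3 : ext r t3 := ext_trans hrs (ext_trans hspv hpvt3)
      have hvw3 : Forces (K0 k v w) t3 := hvw.mono (ext_trans ht2 ht3)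
      rcases le_total (rk a) (rk b) with hle | hle
      · refine hBw t3 hpwt ⟨v, w, hπv.mono hpvt3, hπw.mono hpwt, Forces.of_mem
          ⟨a, b, k, hfv.mono hpvt3, hfw.mono hpwt, hvw3, ?_⟩⟩
        rw [max_eq_right hle]
        exact hew
      · refine hBv t3 hpvt3 ⟨v, w, hπv.mono hpvt3, hπw.mono hpwt, Forces.of_mem
          ⟨a, b, k, hfv.mono hpvt3, hfw.mono hpwt, hvw3, ?_⟩⟩
        rw [max_eq_left hle]
        exact hev
    · obtain ⟨t1, ht1, v, w, hv, hw, hvw⟩ := hc 0 t (ext_refl t)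
      obtain ⟨t2, ht2, pv, hpv, hpvt⟩ := hv t1 (ext_refl t1)
      obtain ⟨t3, ht3, pw, hpw, hpwt⟩ := (hw.mono ht2) t2 (ext_refl t2)
      obtain ⟨a, hfv, hra⟩ := hpv
      obtain ⟨b, hfw, hrb⟩ := hpw
      have hab : a = b := hrk (hra.trans hrb.symm)
      subst hab
      have hst3 : ext s t3 := ext_trans ht (ext_trans ht1 (ext_trans ht2 ht3))
      have hrt3 : ext r t3 := ext_trans hrs hst3
      have hvw3 : Forces (K0 0 v w) t3 := hvw.mono (ext_trans ht2 ht3)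
      exact hP v w a t3 hrt3 (h1 0 v w t3 hrt3 hvw3).1 (hfv.mono (ext_trans hpvt ht3))
        (hfw.mono hpwt)

end

/-- the map form for arbitrary parts -/
theorem Splits.surj {I L D E : Type} (H : L → L → Set (Fn I)) (K : D → L → L → Set (Fn I))
    (r : Fn I) (g : D → E) (hg : Function.Surjective g) (h : Splits H K r) :
    Splits H (fun d v w => {p | ∃ i, g i = d ∧ p ∈ K i v w}) r := by
  obtain ⟨h1, h2, h3, h4⟩ := h
  have key : ∀ (d : E) (v w : L) (t s : Fn I),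
      Forces {p | ∃ i, g i = d ∧ p ∈ K i v w} t → ext t s →
      ∃ u, ext s u ∧ ∃ i, g i = d ∧ Forces (K i v w) u := by
    intro d v w t s hF hs
    obtain ⟨u, hu, p, ⟨i, hi, hp⟩, hpu⟩ := hF s hs
    exact ⟨u, hu, i, hi, (Forces.of_mem hp).mono hpu⟩
  have up : ∀ (i : D) (v w : L) (t : Fn I), Forces (K i v w) t →
      Forces {p | ∃ j, g j = g i ∧ p ∈ K j v w} t := by
    intro i v w t hF s hs
    obtain ⟨u, hu, p, hp, hpu⟩ := hF s hs
    exact ⟨u, hu, p, ⟨i, rfl, hp⟩, hpu⟩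
  refine ⟨?_, ?_, ?_, ?_⟩
  · intro d v w t hrt hF
    refine ⟨?_, ?_⟩
    · intro s hs
      obtain ⟨u, hu, i, hi, hFi⟩ := key d v w t s hF hs
      obtain ⟨u', hu', p, hp, hpu'⟩ := (h1 i v w u (ext_trans hrt (ext_trans hs hu)) hFi).1 u
        (ext_refl u)
      exact ⟨u', ext_trans hu hu', p, hp, hpu'⟩
    · intro s hs
      obtain ⟨u, hu, i, hi, hFi⟩ := key d v w t s hF hs
      obtain ⟨u', hu', p, hp, hpu'⟩ := (h1 i v w u (ext_trans hrt (ext_trans hs hu)) hFi).2 u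
        (ext_refl u)
      exact ⟨u', ext_trans hu hu', p, ⟨i, hi, hp⟩, hpu'⟩
  · intro v w t hrt hF
    obtain ⟨t', ht', i, hi⟩ := h2 v w t hrt hF
    exact ⟨t', ht', g i, up i v w t' hi⟩
  · intro d d' v w t hrt hF1 hF2
    obtain ⟨u, hu, i, hi, hFi⟩ := key d v w t t hF1 (ext_refl t)
    obtain ⟨u', hu', j, hj, hFj⟩ := key d' v w t u hF2 hu
    have hij := h3 i j v w u' (ext_trans hrt (ext_trans hu hu')) (hFi.mono hu') hFj
    rw [← hi, ← hj, hij]
  · intro π s hrs hπ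
    obtain ⟨t, ht, n, hn⟩ := h4 π s hrs hπ
    refine ⟨t, ht, n, fun d t' ht' => ?_⟩
    obtain ⟨i, rfl⟩ := hg d
    obtain ⟨t'', ht'', v, w, ha, hb, hc⟩ := hn i t' ht'
    exact ⟨t'', ht'', v, w, ha, hb, up i v w t'' hc⟩

/-- **CH in the ground model**: forced uncountably chromatic graphs coloured by ground model reals
split to `D` parts for every nonempty `D` of size at most `ℵ₁`. -/
theorem splits_ch (hCH : (2 : Cardinal.{0}) ^ ℵ₀ = ℵ_ 1) {L : Type} (H : L → L → Set (Fn Tr))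
    (f : L → (ℕ → Bool) → Set (Fn Tr)) (r : Fn Tr) (hG : IsGraph H r) (hf : IsFun f r)
    (hP : IsProper H f r) (hU : UncChrom H r) (D : Type) (hD : Nonempty D) (hDc : #D ≤ ℵ_ 1) :
    ∃ K : D → L → L → Set (Fn Tr), Splits H K r := by
  obtain ⟨K0, hK0⟩ := splits_nat H f r hG hf hP hU
  obtain ⟨e, -, he⟩ := om_enum
  have h1 : #(ℕ → Bool) ≤ #Om := by
    rw [mk_fn_le_aux, hCH]
    simp [Om]
  obtain ⟨i⟩ := (le_def _ _).1 h1
  have h2 := splits_om_names f K0 i e H r i.injective he hf hP hK0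
  have h3 : #D ≤ #Om := by simpa [Om] using hDc
  obtain ⟨j⟩ := (le_def _ _).1 h3
  exact ⟨_, Splits.surj H _ r (Function.invFun j) (Function.invFun_surjective j.injective) h2⟩

end Pool.Agent.TH764.Spl
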